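import Mathlib

set_option autoImplicit false

open Matrix

namespace Pool.Agent.X176.RS

variable {K : Type} [RCLike K]

/-- two `n × l` matrices of rank `l` differ by a unitary matrix on the left and an invertible one on the right -/
theorem exists_unitary {n l : ℕ} (X Y : Matrix (Fin n) (Fin l) K) (hX : X.rank = l) (hY : Y.rank = l) :
    ∃ W ∈ Matrix.unitaryGroup (Fin n) K, ∃ R : Matrix (Fin l) (Fin l) K, IsUnit R ∧ Y = W * X * R := by
  classical
  let E := EuclideanSpace K (Fin n)
  let F := EuclideanSpace K (Fin l)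
  let LX : F →ₗ[K] E := Matrix.toEuclideanLin X
  let LY : F →ₗ[K] E := Matrix.toEuclideanLin Y
  have hrX : Module.finrank K (LinearMap.range LX) = l := by
    refine Eq.trans ?_ hX
    rw [Matrix.rank_eq_finrank_range_toLin X (PiLp.basisFun 2 K (Fin n)) (PiLp.basisFun 2 K (Fin l))]
    rfl
  have hrY : Module.finrank K (LinearMap.range LY) = l := by
    refine Eq.trans ?_ hY
    rw [Matrix.rank_eq_finrank_range_toLin Y (PiLp.basisFun 2 K (Fin n)) (PiLp.basisFun 2 K (Fin l))]
    rfl
  have hiX : Function.Injective LX := by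
    rw [← LinearMap.ker_eq_bot, ← Submodule.finrank_eq_zero (R := K)]
    have := LX.finrank_range_add_finrank_ker
    rw [hrX, finrank_euclideanSpace_fin] at this
    omega
  have hiY : Function.Injective LY := by
    rw [← LinearMap.ker_eq_bot, ← Submodule.finrank_eq_zero (R := K)]
    have := LY.finrank_range_add_finrank_ker
    rw [hrY, finrank_euclideanSpace_fin] at this
    omega
  let bX := stdOrthonormalBasis K (LinearMap.range LX)
  let bY := stdOrthonormalBasis K (LinearMap.range LY)
  let J : LinearMap.range LX ≃ₗᵢ[K] LinearMap.range LY :=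
    bX.equiv bY (finCongr (hrX.trans hrY.symm))
  let V : E →ₗᵢ[K] E := ((LinearMap.range LY).subtypeₗᵢ.comp J.toLinearIsometry).extend
  have hV : ∀ x : LinearMap.range LX, V x = J x := fun x =>
    LinearIsometry.extend_apply _ x
  -- the invertible matrix
  let eX : F ≃ₗ[K] LinearMap.range LX := LinearEquiv.ofInjective LX hiX
  let eY : F ≃ₗ[K] LinearMap.range LY := LinearEquiv.ofInjective LY hiY
  let ρ : F ≃ₗ[K] F := (eY.trans J.symm.toLinearEquiv).trans eX.symm
  have hρ : ∀ y : F, V (LX (ρ y)) = LY y := by
    intro y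
    have h1 : eX (ρ y) = J.symm (eY y) := by
      change eX (eX.symm (J.symm (eY y))) = _
      rw [LinearEquiv.apply_symm_apply]
    have h2 : LX (ρ y) = ((eX (ρ y) : LinearMap.range LX) : E) := rfl
    rw [h2, hV, h1, LinearIsometryEquiv.apply_symm_apply]
    rfl
  let W : Matrix (Fin n) (Fin n) K := Matrix.toEuclideanLin.symm V.toLinearMap
  let R : Matrix (Fin l) (Fin l) K := Matrix.toEuclideanLin.symm ρ.toLinearMap
  have hW : Matrix.toEuclideanLin W = V.toLinearMap := LinearEquiv.apply_symm_apply _ _
  have hR : Matrix.toEuclideanLin R = ρ.toLinearMap := LinearEquiv.apply_symm_apply _ _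
  refine ⟨W, ?_, R, ?_, ?_⟩
  · rw [Matrix.mem_unitaryGroup_iff']
    have hcol : ∀ j k, (V (EuclideanSpace.single j (1 : K)) : E) k = W k j := by
      intro j k
      have : V (EuclideanSpace.single j (1 : K)) = Matrix.toEuclideanLin W (EuclideanSpace.single j (1 : K)) := by
        rw [hW]; rfl
      rw [this, Matrix.toEuclideanLin_apply]
      simp
    ext i j
    have h1 : inner K (V (EuclideanSpace.single i (1 : K))) (V (EuclideanSpace.single j (1 : K))) =
        inner K (EuclideanSpace.single i (1 : K) : E) (EuclideanSpace.single j (1 : K)) := V.inner_map_map _ _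
    rw [PiLp.inner_apply, EuclideanSpace.inner_single_left] at h1
    rw [Matrix.mul_apply]
    simp only [hcol, RCLike.inner_apply] at h1
    simp only [Matrix.star_apply]
    rw [Matrix.one_apply]
    calc ∑ x, star (W x i) * W x j = ∑ x, W x j * (starRingEnd K) (W x i) := by
          apply Finset.sum_congr rfl; intro x _; rw [mul_comm]; rfl
      _ = _ := h1
      _ = _ := by simp [EuclideanSpace.single_apply]
  · rw [← Matrix.mulVec_injective_iff_isUnit]
    intro x y hxy
    have h1 : ρ (WithLp.toLp 2 x) = ρ (WithLp.toLp 2 y) := by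
      have hx : ρ (WithLp.toLp 2 x) = Matrix.toEuclideanLin R (WithLp.toLp 2 x) := by rw [hR]; rfl
      have hy : ρ (WithLp.toLp 2 y) = Matrix.toEuclideanLin R (WithLp.toLp 2 y) := by rw [hR]; rfl
      rw [hx, hy, Matrix.toEuclideanLin_apply, Matrix.toEuclideanLin_apply]
      exact congrArg (WithLp.toLp 2) hxy
    exact congrArg WithLp.ofLp (ρ.injective h1)
  · apply (Matrix.toEuclideanLin (𝕜 := K) (m := Fin n) (n := Fin l)).injective
    apply LinearMap.ext
    intro y
    have h1 : Matrix.toEuclideanLin Y y = LY y := rfl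
    have h2 : Matrix.toEuclideanLin (W * X * R) y =
        Matrix.toEuclideanLin W (Matrix.toEuclideanLin X (Matrix.toEuclideanLin R y)) := by
      simp only [Matrix.toEuclideanLin_apply, Matrix.mulVec_mulVec, Matrix.mul_assoc]
    rw [h1, h2, hW, hR]
    exact (hρ y).symm

end Pool.Agent.X176.RS
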